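import Pool.Agent.Y709.Kum.Stm2

/-! # The product over the characters at a vector of roots of unity -/

set_option autoImplicit false

namespace Pool.Agent.Y468.Kum

open Pool.Agent.Y709.Kum

theorem kummerProd : KummerProd := by
  classical
  intro K _ μ a hμ U hU M _ F
  obtain ⟨n, rfl⟩ : ∃ n, μ = n + 1 := ⟨μ - 1, by omega⟩
  have hU0 : ∀ i, U i ≠ 0 := by
    intro i h
    have := hU i
    rw [h, zero_pow (Nat.succ_ne_zero n)] at this
    exact zero_ne_one this
  let V : Fin a → Kˣ := fun i => Units.mk0 (U i) (hU0 i)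
  have hV : ∀ i, V i ^ (n + 1) = 1 := by
    intro i
    apply Units.ext
    simpa [V] using hU i
  have hmod : ∀ i (k : ℕ), V i ^ (k % (n + 1)) = V i ^ k := by
    intro i k
    conv_rhs => rw [← Nat.div_add_mod k (n + 1), pow_add, pow_mul, hV, one_pow, one_mul]
  let Φ : Multiplicative (Fin a → Fin (n + 1)) →* Kˣ :=
    { toFun := fun v => ∏ i, V i ^ ((Multiplicative.toAdd v i : Fin (n + 1)) : ℕ)
      map_one' := by
        refine Finset.prod_eq_one fun i _ => ?_
        simp
      map_mul' := by
        intro x y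
        rw [← Finset.prod_mul_distrib]
        refine Finset.prod_congr rfl fun i _ => ?_
        rw [← pow_add, toAdd_mul, Pi.add_apply, Fin.val_add, hmod] }
  have hΦ : ∀ v, Φ v = ∏ i, V i ^ ((Multiplicative.toAdd v i : Fin (n + 1)) : ℕ) := fun v => rfl
  haveI : Finite Φ.range := by
    have : Finite (Multiplicative (Fin a → Fin (n + 1))) := inferInstance
    exact Finite.of_surjective Φ.rangeRestrict Φ.rangeRestrict_surjective
  letI : Fintype Φ.range := Fintype.ofFinite _
  obtain ⟨g, hg⟩ := IsCyclic.exists_generator (α := Φ.range)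
  have hVmem : ∀ i, V i ∈ Φ.range := by
    intro i
    refine ⟨Multiplicative.ofAdd (Pi.single i (Fin.ofNat (n + 1) 1)), ?_⟩
    rw [hΦ, Finset.prod_eq_single i]
    · rw [toAdd_ofAdd, Pi.single_eq_same]
      have := hmod i 1
      rw [pow_one] at this
      exact this
    · intro j _ hj
      rw [toAdd_ofAdd, Pi.single_eq_of_ne hj]
      simp
    · simp
  have hord : orderOf ((g : Kˣ) : K) = orderOf g := by
    rw [orderOf_units, Subgroup.orderOf_coe]
  have hou : orderOf ((g : Kˣ) : K) = orderOf U := by
    apply Nat.dvd_antisymm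
    · rw [orderOf_dvd_iff_pow_eq_one]
      obtain ⟨v, hv⟩ := g.2
      rw [← hv, hΦ, ← Units.val_pow_eq_pow_val, ← Finset.prod_pow]
      rw [Finset.prod_eq_one, Units.val_one]
      intro i _
      rw [← pow_mul, mul_comm, pow_mul]
      have h1 : V i ^ orderOf U = 1 := by
        apply Units.ext
        have := congrFun (pow_orderOf_eq_one U) i
        simpa [V] using this
      rw [h1, one_pow]
    · rw [orderOf_dvd_iff_pow_eq_one, hord]
      funext i
      rw [Pi.pow_apply, Pi.one_apply]
      have h1 : (⟨V i, hVmem i⟩ : Φ.range) ^ orderOf g = 1 := by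
        rw [← orderOf_dvd_iff_pow_eq_one]
        exact orderOf_dvd_of_mem_zpowers (hg _)
      have h2 := congrArg (fun x : Φ.range => ((x : Kˣ) : K)) h1
      simpa [V] using h2
  let f := Φ.rangeRestrict
  have hcard : ∀ y : Φ.range, (Finset.univ.filter fun v => f v = y).card =
      (Finset.univ.filter fun v => f v = 1).card := by
    intro y
    exact MonoidHom.card_fiber_eq_of_mem_range f (Φ.rangeRestrict_surjective y)
      (Φ.rangeRestrict_surjective 1)
  refine ⟨((g : Kˣ) : K), (Finset.univ.filter fun v => f v = 1).card, hou, ?_, ?_⟩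
  · have h1 : Fintype.card (Multiplicative (Fin a → Fin (n + 1))) = (n + 1) ^ a := by
      rw [Fintype.card_multiplicative]
      simp
    rw [← h1, ← Finset.card_univ, Finset.card_eq_sum_card_fiberwise (f := f)
      (t := Finset.univ) (fun _ _ => Finset.mem_coe.2 (Finset.mem_univ _)),
      Finset.sum_congr rfl fun y _ => hcard y, Finset.sum_const, smul_eq_mul, Finset.card_univ,
      ← hou, hord]
    congr 1
    rw [orderOf_eq_card_of_forall_mem_zpowers hg, Nat.card_eq_fintype_card]
  · have h1 : ∏ v : Fin a → Fin (n + 1), F (∏ i, U i ^ (v i : ℕ)) =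
        ∏ v : Multiplicative (Fin a → Fin (n + 1)), F (((f v : Φ.range) : Kˣ) : K) := by
      refine Fintype.prod_equiv Multiplicative.ofAdd _ _ fun v => ?_
      congr 1
      change _ = ((∏ i, V i ^ (v i : ℕ) : Kˣ) : K)
      rw [Units.coe_prod]
      refine Finset.prod_congr rfl fun i _ => ?_
      rw [Units.val_pow_eq_pow_val]
      rfl
    rw [h1, ← Finset.prod_fiberwise (s := Finset.univ) (g := f)]
    have h2 : ∀ y : Φ.range, ∏ v with f v = y, F (((f v : Φ.range) : Kˣ) : K) =
        F ((y : Kˣ) : K) ^ (Finset.univ.filter fun v => f v = 1).card := by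
      intro y
      rw [← hcard y, ← Finset.prod_const]
      refine Finset.prod_congr rfl fun v hv => ?_
      rw [(Finset.mem_filter.1 hv).2]
    rw [Finset.prod_congr rfl fun y _ => h2 y, Finset.prod_pow]
    congr 1
    rw [← IsCyclic.image_range_orderOf hg, Finset.prod_image]
    · rw [← hou, hord]
      refine Finset.prod_congr rfl fun j _ => ?_
      rw [Subgroup.coe_pow, Units.val_pow_eq_pow_val]
    · intro i hi j hj h
      exact pow_injOn_Iio_orderOf (by simpa using hi) (by simpa using hj) h

end Pool.Agent.Y468.Kum
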